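import Mathlib
set_option autoImplicit false

/-!
# Three-valued pair degrees

`Good V l`: there is a set of triples of `V` (a symmetric ternary relation, read on distinct
points) in which every pair is in `l`, `l - 2` or `l - 4` triples.
-/

namespace Pool.Agent.Q296.VB

open Finset

open scoped Classical in
/-- number of the triples of `t` which contain `i` and `j` -/
noncomputable def cd {V : Type} [Fintype V] (t : V → V → V → Prop) (i j : V) : ℕ :=
  (Finset.univ.filter fun c => c ≠ i ∧ c ≠ j ∧ t i j c).card

def Good (V : Type) [Fintype V] (l : ℕ) : Prop :=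
  ∃ t : V → V → V → Prop, (∀ a b c, t a b c → t b a c) ∧ (∀ a b c, t a b c → t a c b) ∧
    ∀ i j, i ≠ j → (cd t i j = l ∨ cd t i j + 2 = l ∨ cd t i j + 4 = l)

theorem cd_false {V : Type} [Fintype V] (i j : V) : cd (fun _ _ _ : V => False) i j = 0 := by
  simp [cd]

theorem good_zero (V : Type) [Fintype V] : Good V 0 :=
  ⟨fun _ _ _ => False, fun _ _ _ h => h, fun _ _ _ h => h, fun i j _ => by
    left; exact cd_false i j⟩

theorem good_two (V : Type) [Fintype V] : Good V 2 :=
  ⟨fun _ _ _ => False, fun _ _ _ h => h, fun _ _ _ h => h, fun i j _ => by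
    right; left; rw [cd_false i j]⟩

theorem good_four (V : Type) [Fintype V] : Good V 4 :=
  ⟨fun _ _ _ => False, fun _ _ _ h => h, fun _ _ _ h => h, fun i j _ => by
    right; right; rw [cd_false i j]⟩

theorem good_congr {V W : Type} [Fintype V] [Fintype W] (e : V ≃ W) {l : ℕ} (h : Good V l) :
    Good W l := by
  obtain ⟨t, h1, h2, h3⟩ := h
  refine ⟨fun a b c => t (e.symm a) (e.symm b) (e.symm c), fun a b c h => h1 _ _ _ h,
    fun a b c h => h2 _ _ _ h, ?_⟩
  intro i j hij
  have hne : e.symm i ≠ e.symm j := fun h => hij (e.symm.injective h)
  have key : cd (fun a b c => t (e.symm a) (e.symm b) (e.symm c)) i j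
      = cd t (e.symm i) (e.symm j) := by
    classical
    unfold cd
    apply Finset.card_bij (fun c _ => e.symm c)
    · intro c hc
      simp only [Finset.mem_filter, Finset.mem_univ, true_and] at hc ⊢
      refine ⟨fun h => hc.1 (e.symm.injective h), fun h => hc.2.1 (e.symm.injective h), hc.2.2⟩
    · intro a _ b _ h
      exact e.symm.injective h
    · intro c hc
      simp only [Finset.mem_filter, Finset.mem_univ, true_and] at hc
      refine ⟨e c, ?_, by simp⟩
      simp only [Finset.mem_filter, Finset.mem_univ, true_and, Equiv.symm_apply_apply]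
      refine ⟨?_, ?_, hc.2.2⟩
      · intro h; apply hc.1; rw [← h]; simp
      · intro h; apply hc.2.1; rw [← h]; simp
  rw [key]
  exact h3 _ _ hne

theorem good_of_card {V W : Type} [Fintype V] [Fintype W] (hc : Fintype.card V = Fintype.card W)
    {l : ℕ} (h : Good V l) : Good W l :=
  good_congr (Fintype.equivOfCardEq hc) h

theorem cd_compl {V : Type} [Fintype V] (t : V → V → V → Prop) {i j : V} (hij : i ≠ j) :
    cd t i j + cd (fun a b c => ¬ t a b c) i j + 2 = Fintype.card V := by
  classical
  have e1 : cd t i j = (univ.filter fun c => c ≠ i ∧ c ≠ j ∧ t i j c).card := by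
    unfold cd
    congr 1
  have e2 : cd (fun a b c => ¬ t a b c) i j
      = (univ.filter fun c => c ≠ i ∧ c ≠ j ∧ ¬ t i j c).card := by
    unfold cd
    congr 1
    ext c
    simp only [Finset.mem_filter, Finset.mem_univ, true_and]
  rw [e1, e2]
  have h1 : (univ.filter fun c => c ≠ i ∧ c ≠ j ∧ t i j c).card
      + (univ.filter fun c => c ≠ i ∧ c ≠ j ∧ ¬ t i j c).card
      = (univ.filter fun c : V => c ≠ i ∧ c ≠ j).card := by
    rw [← Finset.card_union_of_disjoint]
    · congr 1
      ext c
      simp only [Finset.mem_union, Finset.mem_filter, Finset.mem_univ, true_and]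
      tauto
    · rw [Finset.disjoint_left]
      intro c hc hc'
      simp only [Finset.mem_filter, Finset.mem_univ, true_and] at hc hc'
      exact hc'.2.2 hc.2.2
  have h2 : (univ.filter fun c : V => c ≠ i ∧ c ≠ j) = univ \ {i, j} := by
    ext c
    simp
  have h3 : (univ \ {i, j} : Finset V).card = Fintype.card V - 2 := by
    rw [Finset.card_sdiff_of_subset (Finset.subset_univ _), Finset.card_pair hij, Finset.card_univ]
  have h4 : 2 ≤ Fintype.card V := by
    rw [← Finset.card_pair hij]
    exact Finset.card_le_univ _
  rw [h2, h3] at h1
  omega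

theorem good_compl {V : Type} [Fintype V] {l : ℕ} (h : Good V l) (hl : l ≤ Fintype.card V + 2) :
    Good V (Fintype.card V + 2 - l) := by
  obtain ⟨t, h1, h2, h3⟩ := h
  refine ⟨fun a b c => ¬ t a b c, fun a b c h h' => h (h1 _ _ _ h'),
    fun a b c h h' => h (h2 _ _ _ h'), ?_⟩
  intro i j hij
  have := cd_compl t hij
  have := h3 i j hij
  omega

/-- the one-factorization of the complete graph on `ZMod n ∪ {∞}` (`n` odd) -/
def F (n : ℕ) : Option (ZMod n) → Option (ZMod n) → ZMod n
  | some i, some j => i + j
  | some i, none => 2 * i
  | none, some i => 2 * i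
  | none, none => 0

theorem F_comm (n : ℕ) (y z : Option (ZMod n)) : F n y z = F n z y := by
  cases y <;> cases z <;> simp [F, add_comm]

open scoped Classical in
theorem F_count (n : ℕ) [NeZero n] (hn : Odd n) (y : Option (ZMod n)) (P : ZMod n → Prop) :
    (univ.filter fun z : Option (ZMod n) => z ≠ y ∧ P (F n y z)).card
      = (univ.filter fun j : ZMod n => P j).card := by
  have h2 : (2 : ZMod n) * (((n + 1) / 2 : ℕ) : ZMod n) = 1 := by
    have h : 2 * ((n + 1) / 2) = n + 1 := by
      obtain ⟨k, hk⟩ := hn
      omega
    have h' : ((2 * ((n + 1) / 2) : ℕ) : ZMod n) = ((n + 1 : ℕ) : ZMod n) := by rw [h]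
    push_cast at h'
    simpa using h'
  have hinj : ∀ a b : ZMod n, 2 * a = 2 * b → a = b := by
    intro a b hab
    have : (((n + 1) / 2 : ℕ) : ZMod n) * (2 * a) = (((n + 1) / 2 : ℕ) : ZMod n) * (2 * b) := by
      rw [hab]
    have e1 : ∀ a : ZMod n, (((n + 1) / 2 : ℕ) : ZMod n) * (2 * a) = a := by
      intro a
      calc _ = (2 * (((n + 1) / 2 : ℕ) : ZMod n)) * a := by ring
        _ = a := by rw [h2, one_mul]
    rwa [e1, e1] at this
  apply Finset.card_bij (fun z _ => F n y z)
  · intro z hz
    simp only [Finset.mem_filter, Finset.mem_univ, true_and] at hz ⊢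
    exact hz.2
  · intro z hz w hw hzw
    simp only [Finset.mem_filter, Finset.mem_univ, true_and] at hz hw
    cases y with
    | none =>
      cases z with
      | none => exact absurd rfl hz.1
      | some a =>
        cases w with
        | none => exact absurd rfl hw.1
        | some b =>
          simp only [F] at hzw
          rw [hinj a b hzw]
    | some i =>
      cases z with
      | none =>
        cases w with
        | none => rfl
        | some b =>
          exfalso
          simp only [F] at hzw
          apply hw.1
          have : b = i := by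
            have : i + i = i + b := by rw [← two_mul]; exact hzw
            exact (add_left_cancel this).symm
          rw [this]
      | some a =>
        cases w with
        | none =>
          exfalso
          simp only [F] at hzw
          apply hz.1
          have : a = i := by
            have : i + a = i + i := by rw [← two_mul]; exact hzw
            exact add_left_cancel this
          rw [this]
        | some b =>
          simp only [F] at hzw
          rw [add_left_cancel hzw]
  · intro j hj
    simp only [Finset.mem_filter, Finset.mem_univ, true_and] at hj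
    cases y with
    | none =>
      refine ⟨some ((((n + 1) / 2 : ℕ) : ZMod n) * j), ?_, ?_⟩
      · simp only [Finset.mem_filter, Finset.mem_univ, true_and, F]
        refine ⟨by simp, ?_⟩
        rw [← mul_assoc, h2, one_mul]
        exact hj
      · simp only [F]
        rw [← mul_assoc, h2, one_mul]
    | some i =>
      by_cases hji : j = 2 * i
      · refine ⟨none, ?_, ?_⟩
        · simp only [Finset.mem_filter, Finset.mem_univ, true_and, F]
          refine ⟨by simp, ?_⟩
          rw [← hji]; exact hj
        · simp only [F]
          exact hji.symm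
      · refine ⟨some (j - i), ?_, ?_⟩
        · simp only [Finset.mem_filter, Finset.mem_univ, true_and, F]
          refine ⟨?_, ?_⟩
          · intro h
            apply hji
            have : j - i = i := by simpa using h
            rw [two_mul]
            exact (sub_eq_iff_eq_add.mp this)
          · rw [add_sub_cancel]; exact hj
        · simp only [F]
          rw [add_sub_cancel]

/-- the triples on `X ∪ Y` made of the triples on `X` and of `{x, y, z}` with `M x (F y z)` -/
def ext {X : Type} (n : ℕ) (tX : X → X → X → Prop) (M : X → ZMod n → Prop) :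
    X ⊕ Option (ZMod n) → X ⊕ Option (ZMod n) → X ⊕ Option (ZMod n) → Prop
  | .inl a, .inl b, .inl c => tX a b c
  | .inl x, .inr y, .inr z => M x (F n y z)
  | .inr y, .inl x, .inr z => M x (F n y z)
  | .inr y, .inr z, .inl x => M x (F n y z)
  | _, _, _ => False

open scoped Classical in
theorem good_step {X : Type} [Fintype X] (n : ℕ) [NeZero n] (hn : Odd n) (l : ℕ) (hX : Good X l)
    (M : X → ZMod n → Prop)
    (hrow : ∀ x, (univ.filter fun j => M x j).card = l ∨ (univ.filter fun j => M x j).card + 2 = l
      ∨ (univ.filter fun j => M x j).card + 4 = l)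
    (hcol : ∀ j, (univ.filter fun x => M x j).card = l ∨ (univ.filter fun x => M x j).card + 2 = l
      ∨ (univ.filter fun x => M x j).card + 4 = l) :
    Good (X ⊕ Option (ZMod n)) l := by
  obtain ⟨tX, h1, h2, h3⟩ := hX
  refine ⟨ext n tX M, ?_, ?_, ?_⟩
  · rintro (a | a) (b | b) (c | c) h <;> simp only [ext] at h ⊢
    · exact h1 _ _ _ h
    · exact h
    · exact h
    · rw [F_comm]; exact h
  · rintro (a | a) (b | b) (c | c) h <;> simp only [ext] at h ⊢
    · exact h2 _ _ _ h
    · rw [F_comm]; exact h
    · exact h
    · exact h
  · have hXY : ∀ x y, cd (ext n tX M) (.inl x) (.inr y) = (univ.filter fun j => M x j).card := by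
      intro x y
      rw [← F_count n hn y (fun j => M x j)]
      unfold cd
      rw [Finset.card_filter, Finset.card_filter, Fintype.sum_sum_type]
      simp [ext]
    have hYX : ∀ x y, cd (ext n tX M) (.inr y) (.inl x) = (univ.filter fun j => M x j).card := by
      intro x y
      rw [← F_count n hn y (fun j => M x j)]
      unfold cd
      rw [Finset.card_filter, Finset.card_filter, Fintype.sum_sum_type]
      simp [ext]
    rintro (a | y) (b | z) hij
    · have hab : a ≠ b := fun h => hij (by rw [h])
      have : cd (ext n tX M) (.inl a) (.inl b) = cd tX a b := by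
        unfold cd
        rw [Finset.card_filter, Finset.card_filter, Fintype.sum_sum_type]
        simp [ext]
      rw [this]
      exact h3 a b hab
    · rw [hXY]; exact hrow a
    · rw [hYX]; exact hrow b
    · have hyz : y ≠ z := fun h => hij (by rw [h])
      have : cd (ext n tX M) (.inr y) (.inr z) = (univ.filter fun x => M x (F n y z)).card := by
        unfold cd
        rw [Finset.card_filter, Finset.card_filter, Fintype.sum_sum_type]
        simp [ext]
      rw [this]
      exact hcol _

theorem good_step' {X : Type} [Fintype X] (n : ℕ) [NeZero n] (hn : Odd n) (l : ℕ) (hX : Good X l)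
    (M : X → ZMod n → Prop) [∀ x j, Decidable (M x j)]
    (hrow : ∀ x, (univ.filter fun j => M x j).card = l ∨ (univ.filter fun j => M x j).card + 2 = l
      ∨ (univ.filter fun j => M x j).card + 4 = l)
    (hcol : ∀ j, (univ.filter fun x => M x j).card = l ∨ (univ.filter fun x => M x j).card + 2 = l
      ∨ (univ.filter fun x => M x j).card + 4 = l) :
    Good (X ⊕ Option (ZMod n)) l :=
  good_step n hn l hX M (fun x => by have := hrow x; convert this)
    (fun j => by have := hcol j; convert this)

end Pool.Agent.Q296.VB
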