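import Mathlib
import Pool.Agent.Q296.VB.Good
set_option autoImplicit false

/-!
# Variance-balanced designs with block size 3 and no repeated blocks
-/

namespace Pool.Agent.Q296.VB

open Finset

/-- A block: a multiset of three points which are not all equal. -/
def IsBlock {v : ℕ} (B : Multiset (Fin v)) : Prop :=
  Multiset.card B = 3 ∧ ∃ a ∈ B, ∃ b ∈ B, a ≠ b

/-- The concurrence of `i` and `j` in the design `D`. -/
def conc {v : ℕ} (D : List (Multiset (Fin v))) (i j : Fin v) : ℕ :=
  (D.map fun B => B.count i * B.count j).sum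

/-- `D` is a `VB(v,3,l)` design. -/
def IsVB (v l : ℕ) (D : List (Multiset (Fin v))) : Prop :=
  (∀ B ∈ D, IsBlock B) ∧ ∀ i j, i ≠ j → conc D i j = l

theorem pair_eq {α : Type} {b c j k : α} (h : (b ::ₘ {c} : Multiset α) = j ::ₘ {k}) :
    (b = j ∧ c = k) ∨ (b = k ∧ c = j) := by
  have hb : b ∈ (j ::ₘ {k} : Multiset α) := h ▸ Multiset.mem_cons_self _ _
  rw [Multiset.mem_cons, Multiset.mem_singleton] at hb
  rcases hb with rfl | rfl
  · left
    rw [Multiset.cons_inj_right, Multiset.singleton_inj] at h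
    exact ⟨rfl, h⟩
  · right
    have h' : (b ::ₘ {c} : Multiset α) = b ::ₘ {j} := by
      rw [h]
      exact Multiset.pair_comm _ _
    rw [Multiset.cons_inj_right, Multiset.singleton_inj] at h'
    exact ⟨rfl, h'⟩

theorem three_eq {α : Type} {a b c i j k : α}
    (h : (a ::ₘ b ::ₘ {c} : Multiset α) = i ::ₘ j ::ₘ {k}) :
    (a = i ∧ b = j ∧ c = k) ∨ (a = i ∧ b = k ∧ c = j) ∨ (a = j ∧ b = i ∧ c = k) ∨
    (a = j ∧ b = k ∧ c = i) ∨ (a = k ∧ b = i ∧ c = j) ∨ (a = k ∧ b = j ∧ c = i) := by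
  have ha : a ∈ (i ::ₘ j ::ₘ {k} : Multiset α) := h ▸ Multiset.mem_cons_self _ _
  rw [Multiset.mem_cons, Multiset.mem_cons, Multiset.mem_singleton] at ha
  rcases ha with rfl | rfl | rfl
  · rw [Multiset.cons_inj_right] at h
    rcases pair_eq h with ⟨h1, h2⟩ | ⟨h1, h2⟩ <;> simp [h1, h2]
  · rw [Multiset.cons_swap i a, Multiset.cons_inj_right] at h
    rcases pair_eq h with ⟨h1, h2⟩ | ⟨h1, h2⟩ <;> simp [h1, h2]
  · have e : (i ::ₘ j ::ₘ {a} : Multiset α) = a ::ₘ i ::ₘ {j} := by
      rw [Multiset.cons_swap a i]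
      congr 1
      exact Multiset.pair_comm _ _
    rw [e, Multiset.cons_inj_right] at h
    rcases pair_eq h with ⟨h1, h2⟩ | ⟨h1, h2⟩ <;> simp [h1, h2]

/-- the weight of the third point -/
def wt {v : ℕ} (i j k : Fin v) : ℕ := if k = i ∨ k = j then 2 else 1

theorem wt_sum {v : ℕ} {i j : Fin v} (hij : i ≠ j) : ∑ k, wt i j k = v + 2 := by
  have h : ∀ k : Fin v, wt i j k = 1 + ((if k = i then 1 else 0) + (if k = j then 1 else 0)) := by
    intro k
    unfold wt
    by_cases h1 : k = i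
    · have h2 : k ≠ j := fun h => hij (h1 ▸ h)
      simp [h1, hij]
    · by_cases h2 : k = j
      · simp [h2, hij.symm]
      · simp [h1, h2]
  simp only [h]
  rw [Finset.sum_add_distrib, Finset.sum_add_distrib]
  simp

theorem conc_eq {v : ℕ} {D : List (Multiset (Fin v))} (hD : ∀ B ∈ D, IsBlock B) (hnd : D.Nodup)
    {i j : Fin v} (hij : i ≠ j) :
    conc D i j = ∑ k, if (i ::ₘ j ::ₘ {k} : Multiset (Fin v)) ∈ D then wt i j k else 0 := by
  unfold conc
  rw [← List.sum_toFinset _ hnd, ← Finset.sum_filter]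
  symm
  apply Finset.sum_of_injOn (fun k => (i ::ₘ j ::ₘ {k} : Multiset (Fin v)))
  · intro a _ b _ h
    simpa using h
  · intro k hk
    simpa using hk
  · intro B hB hB'
    by_contra hne
    have h1 : B.count i ≠ 0 := fun h => hne (by rw [h, zero_mul])
    have h2 : B.count j ≠ 0 := fun h => hne (by rw [h, mul_zero])
    have hi : i ∈ B := Multiset.count_pos.mp (Nat.pos_of_ne_zero h1)
    have hj : j ∈ B := Multiset.count_pos.mp (Nat.pos_of_ne_zero h2)
    obtain ⟨B1, rfl⟩ := Multiset.exists_cons_of_mem hi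
    have hj' : j ∈ B1 := by
      rcases Multiset.mem_cons.mp hj with h | h
      · exact absurd h.symm hij
      · exact h
    obtain ⟨B2, rfl⟩ := Multiset.exists_cons_of_mem hj'
    have hB3 : (i ::ₘ j ::ₘ B2) ∈ D := by simpa using hB
    have hc := (hD _ hB3).1
    have hc' : Multiset.card B2 = 1 := by simpa using hc
    obtain ⟨k, rfl⟩ := Multiset.card_eq_one.mp hc'
    apply hB'
    exact ⟨k, by simpa using hB3, rfl⟩
  · intro k _
    have c1 : (i ::ₘ j ::ₘ {k} : Multiset (Fin v)).count i = 1 + (if i = k then 1 else 0) := by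
      rw [Multiset.count_cons_self, Multiset.count_cons_of_ne hij, Multiset.count_singleton,
        add_comm]
    have c2 : (i ::ₘ j ::ₘ {k} : Multiset (Fin v)).count j = 1 + (if j = k then 1 else 0) := by
      rw [Multiset.count_cons_of_ne hij.symm, Multiset.count_cons_self, Multiset.count_singleton,
        add_comm]
    rw [c1, c2]
    unfold wt
    by_cases h1 : k = i
    · have h2 : ¬ j = k := fun h => hij (by rw [h, h1])
      simp [h1, hij.symm]
    · by_cases h2 : k = j
      · simp [h2, hij]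
      · have h1' : ¬ i = k := fun h => h1 h.symm
        have h2' : ¬ j = k := fun h => h2 h.symm
        simp [h1, h2, h1', h2']

open scoped Classical in
/-- all blocks -/
noncomputable def allB (v : ℕ) : Finset (Multiset (Fin v)) :=
  ((univ : Finset (Sym (Fin v) 3)).image (fun s : Sym (Fin v) 3 => s.1)).filter IsBlock

theorem mem_allB {v : ℕ} (B : Multiset (Fin v)) : B ∈ allB v ↔ IsBlock B := by
  classical
  unfold allB
  rw [Finset.mem_filter]
  constructor
  · exact fun h => h.2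
  · intro h
    refine ⟨?_, h⟩
    exact Finset.mem_image.mpr ⟨(⟨B, h.1⟩ : Sym (Fin v) 3), Finset.mem_univ _, rfl⟩

theorem isBlock_three {v : ℕ} {i j : Fin v} (hij : i ≠ j) (k : Fin v) :
    IsBlock (i ::ₘ j ::ₘ {k} : Multiset (Fin v)) :=
  ⟨by simp, i, by simp, j, by simp, hij⟩

open scoped Classical in
/-- the design of the blocks with the property `Q` -/
noncomputable def des (v : ℕ) (Q : Multiset (Fin v) → Prop) : List (Multiset (Fin v)) :=
  ((allB v).filter Q).toList

theorem des_block {v : ℕ} (Q : Multiset (Fin v) → Prop) : ∀ B ∈ des v Q, IsBlock B := by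
  classical
  intro B hB
  unfold des at hB
  rw [Finset.mem_toList, Finset.mem_filter, mem_allB] at hB
  exact hB.1

theorem des_nodup {v : ℕ} (Q : Multiset (Fin v) → Prop) : (des v Q).Nodup :=
  Finset.nodup_toList _

theorem mem_des {v : ℕ} (Q : Multiset (Fin v) → Prop) {i j : Fin v} (hij : i ≠ j) (k : Fin v) :
    (i ::ₘ j ::ₘ {k} : Multiset (Fin v)) ∈ des v Q ↔ Q (i ::ₘ j ::ₘ {k}) := by
  classical
  unfold des
  rw [Finset.mem_toList, Finset.mem_filter, mem_allB]
  exact ⟨fun h => h.2, fun h => ⟨isBlock_three hij k, h⟩⟩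

/-- sufficiency of `Good` -/
theorem exists_of_good {v l : ℕ} (h : Good (Fin v) l) :
    ∃ D : List (Multiset (Fin v)), D.Nodup ∧ IsVB v l D := by
  classical
  obtain ⟨t, t1, t2, ht⟩ := h
  have cdsymm : ∀ i j, cd t i j = cd t j i := by
    intro i j
    unfold cd
    congr 1
    ext c
    simp only [Finset.mem_filter, Finset.mem_univ, true_and]
    constructor
    · rintro ⟨h1, h2, h3⟩; exact ⟨h2, h1, t1 _ _ _ h3⟩
    · rintro ⟨h1, h2, h3⟩; exact ⟨h2, h1, t1 _ _ _ h3⟩
  let p : Fin v → Fin v → Prop := fun i j => cd t i j + 4 = l ∨ (cd t i j + 2 = l ∧ i < j)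
  let R : Fin v → Fin v → Fin v → Prop := fun i j k =>
    (i ≠ j ∧ i ≠ k ∧ j ≠ k ∧ t i j k) ∨ (i = j ∧ i ≠ k ∧ p i k) ∨ (i = k ∧ i ≠ j ∧ p i j)
      ∨ (j = k ∧ j ≠ i ∧ p j i)
  have R1 : ∀ a b c, R a b c → R b a c := by
    rintro a b c (⟨h1, h2, h3, h4⟩ | ⟨h1, h2, h3⟩ | ⟨h1, h2, h3⟩ | ⟨h1, h2, h3⟩)
    · left; exact ⟨h1.symm, h3, h2, t1 _ _ _ h4⟩
    · right; left; exact ⟨h1.symm, h1 ▸ h2, h1 ▸ h3⟩
    · right; right; right; exact ⟨h1, h2, h3⟩
    · right; right; left; exact ⟨h1, h2, h3⟩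
  have R2 : ∀ a b c, R a b c → R a c b := by
    rintro a b c (⟨h1, h2, h3, h4⟩ | ⟨h1, h2, h3⟩ | ⟨h1, h2, h3⟩ | ⟨h1, h2, h3⟩)
    · left; exact ⟨h2, h1, h3.symm, t2 _ _ _ h4⟩
    · right; right; left; exact ⟨h1, h2, h3⟩
    · right; left; exact ⟨h1, h2, h3⟩
    · right; right; right; exact ⟨h1.symm, h1 ▸ h2, h1 ▸ h3⟩
  let Q : Multiset (Fin v) → Prop := fun B => ∃ a b c, B = a ::ₘ b ::ₘ {c} ∧ R a b c
  have hQ : ∀ i j k, Q (i ::ₘ j ::ₘ {k}) ↔ R i j k := by
    intro i j k
    constructor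
    · rintro ⟨a, b, c, h, hR⟩
      rcases three_eq h with ⟨rfl, rfl, rfl⟩ | ⟨rfl, rfl, rfl⟩ | ⟨rfl, rfl, rfl⟩ |
        ⟨rfl, rfl, rfl⟩ | ⟨rfl, rfl, rfl⟩ | ⟨rfl, rfl, rfl⟩
      · exact hR
      · exact R2 _ _ _ hR
      · exact R1 _ _ _ hR
      · exact R2 _ _ _ (R1 _ _ _ hR)
      · exact R1 _ _ _ (R2 _ _ _ hR)
      · exact R1 _ _ _ (R2 _ _ _ (R1 _ _ _ hR))
    · intro h
      exact ⟨i, j, k, rfl, h⟩
  refine ⟨des v Q, des_nodup Q, des_block Q, ?_⟩
  intro i j hij
  rw [conc_eq (des_block Q) (des_nodup Q) hij]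
  have hR : ∀ k, ((i ::ₘ j ::ₘ {k} : Multiset (Fin v)) ∈ des v Q) ↔ R i j k := by
    intro k
    rw [mem_des Q hij, hQ]
  simp only [hR]
  have hpt : ∀ k, (if R i j k then wt i j k else 0)
      = (if k ≠ i ∧ k ≠ j ∧ t i j k then 1 else 0) + ((if k = i then (if p i j then 2 else 0) else 0)
        + (if k = j then (if p j i then 2 else 0) else 0)) := by
    intro k
    by_cases h1 : k = i
    · subst h1
      have : R k j k ↔ p k j := by
        constructor
        · rintro (⟨h1, h2, h3, h4⟩ | ⟨h1, h2, h3⟩ | ⟨h1, h2, h3⟩ | ⟨h1, h2, h3⟩)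
          · exact absurd rfl h2
          · exact absurd h1 hij
          · exact h3
          · exact absurd h1.symm hij
        · intro h
          right; right; left; exact ⟨rfl, hij, h⟩
      simp only [this]
      simp [wt, hij]
    · by_cases h2 : k = j
      · subst h2
        have : R i k k ↔ p k i := by
          constructor
          · rintro (⟨h1, h2, h3, h4⟩ | ⟨h1, h2, h3⟩ | ⟨h1, h2, h3⟩ | ⟨h1, h2, h3⟩)
            · exact absurd rfl h3
            · exact absurd h1 hij
            · exact absurd h1 hij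
            · exact h3
          · intro h
            right; right; right; exact ⟨rfl, hij.symm, h⟩
        simp only [this]
        simp [wt, h1]
      · have : R i j k ↔ t i j k := by
          constructor
          · rintro (⟨_, _, _, h4⟩ | ⟨h, _, _⟩ | ⟨h, _, _⟩ | ⟨h, _, _⟩)
            · exact h4
            · exact absurd h hij
            · exact absurd h.symm h1
            · exact absurd h.symm h2
          · intro h
            left; exact ⟨hij, fun h => h1 h.symm, fun h => h2 h.symm, h⟩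
        simp only [this]
        simp [wt, h1, h2]
  rw [Finset.sum_congr rfl (fun k _ => hpt k), Finset.sum_add_distrib, Finset.sum_add_distrib]
  have s1 : (∑ k, if k ≠ i ∧ k ≠ j ∧ t i j k then 1 else 0) = cd t i j := by
    unfold cd
    rw [Finset.card_filter]
    exact Finset.sum_congr rfl (fun k _ => by congr)
  rw [s1, Finset.sum_ite_eq' univ i, Finset.sum_ite_eq' univ j]
  simp only [Finset.mem_univ, if_true]
  have hp1 : p i j ↔ (cd t i j + 4 = l ∨ (cd t i j + 2 = l ∧ i < j)) := Iff.rfl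
  have hp2 : p j i ↔ (cd t i j + 4 = l ∨ (cd t i j + 2 = l ∧ j < i)) := by
    rw [cdsymm i j]
  rcases ht i j hij with h | h | h
  · have n1 : ¬ p i j := by rw [hp1]; omega
    have n2 : ¬ p j i := by rw [hp2]; omega
    simp [n1, n2, h]
  · rcases lt_or_gt_of_ne hij with hlt | hlt
    · have n1 : p i j := by rw [hp1]; right; exact ⟨h, hlt⟩
      have n2 : ¬ p j i := by
        rw [hp2]
        rintro (h' | h')
        · omega
        · exact absurd h'.2 (not_lt.mpr hlt.le)
      simp only [n1, n2, if_true, if_false]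
      omega
    · have n1 : ¬ p i j := by
        rw [hp1]
        rintro (h' | h')
        · omega
        · exact absurd h'.2 (not_lt.mpr hlt.le)
      have n2 : p j i := by rw [hp2]; right; exact ⟨h, hlt⟩
      simp only [n1, n2, if_true, if_false]
      omega
  · have n1 : p i j := by rw [hp1]; left; exact h
    have n2 : p j i := by rw [hp2]; left; exact h
    simp only [n1, n2, if_true]
    omega

end Pool.Agent.Q296.VB
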