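import Mathlib
import Pool.Agent.Q296.VB.Good
set_option autoImplicit false

/-!
# Matrices with nearly constant row and column sums, and the induction
-/

namespace Pool.Agent.Q296.VB

open Finset

theorem row_count (n : ℕ) [NeZero n] (w : ℕ) (hw : w ≤ n) (s : ZMod n) :
    (univ.filter fun j : ZMod n => (j - s).val < w).card = w := by
  rw [← Finset.card_range w]
  apply Finset.card_bij (fun (j : ZMod n) _ => (j - s).val)
  · intro j hj
    simpa using hj
  · intro a _ b _ h
    have := ZMod.val_injective n h
    exact sub_left_injective this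
  · intro k hk
    have hk' : k < w := by simpa using hk
    have hv : ((s + (k : ZMod n)) - s).val = k := by
      rw [add_sub_cancel_left]
      exact ZMod.val_cast_of_lt (by omega)
    refine ⟨s + (k : ZMod n), ?_, hv⟩
    simp only [Finset.mem_filter, Finset.mem_univ, true_and]
    rw [hv]
    simpa using hk

theorem col_count (n : ℕ) [NeZero n] (w : ℕ) (hw : w ≤ n) (j : ZMod n) :
    (univ.filter fun x : ZMod n => (j - x).val < w).card = w := by
  conv_rhs => rw [← row_count n w hw 0]
  apply Finset.card_bij (fun (x : ZMod n) _ => j - x)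
  · intro x hx
    simpa using hx
  · intro a _ b _ h
    exact sub_right_injective h
  · intro k hk
    refine ⟨j - k, ?_, by simp⟩
    simpa using hk

/-- case `v = 2 n + 1` -/
theorem step_one (n : ℕ) [NeZero n] (hn : Odd n) (l w : ℕ) (hw : w ≤ n) (hl : w = l ∨ w + 2 = l)
    (hX : Good (ZMod n) l) : Good (ZMod n ⊕ Option (ZMod n)) l := by
  refine good_step' n hn l hX (fun x j => (j - x).val < w) ?_ ?_
  · intro x
    rw [row_count n w hw x]
    omega
  · intro j
    rw [col_count n w hw j]
    omega

def M3 (n w : ℕ) : ZMod n ⊕ Bool → ZMod n → Bool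
  | .inl x, j => decide ((j - x).val < w)
  | .inr _, j => decide ((j - 0).val < w)

/-- case `v = 2 n + 3` -/
theorem step_three (n : ℕ) [NeZero n] (hn : Odd n) (l w : ℕ) (hw : w ≤ n) (hl : w + 2 = l)
    (hX : Good (ZMod n ⊕ Bool) l) : Good ((ZMod n ⊕ Bool) ⊕ Option (ZMod n)) l := by
  refine good_step' n hn l hX (fun x j => M3 n w x j = true) ?_ ?_
  · intro x
    have h2 : (univ.filter fun j : ZMod n => M3 n w x j = true).card = w := by
      cases x with
      | inl x =>
        simp only [M3, decide_eq_true_eq]
        exact row_count n w hw x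
      | inr b =>
        simp only [M3, decide_eq_true_eq]
        exact row_count n w hw 0
    rw [h2]
    omega
  · intro j
    have h2 : (univ.filter fun x : ZMod n ⊕ Bool => M3 n w x j = true).card
        = w + (if (j - 0).val < w then 2 else 0) := by
      rw [Finset.card_filter, Fintype.sum_sum_type]
      have e1 : (∑ a : ZMod n, if M3 n w (.inl a) j = true then 1 else 0) = w := by
        simp only [M3, decide_eq_true_eq]
        rw [← Finset.card_filter]
        exact col_count n w hw j
      have e2 : (∑ a : Bool, if M3 n w (.inr a) j = true then 1 else 0)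
          = (if (j - 0).val < w then 2 else 0) := by
        simp only [M3, decide_eq_true_eq]
        simp
      rw [e1, e2]
    rw [h2]
    split_ifs <;> omega

theorem pair_count (n : ℕ) [NeZero n] (w m : ℕ) (h0 : 0 < w) (hw : w ≤ n) (j : ZMod n) :
    (univ.filter fun r : Fin m => (j - ((w * (r : ℕ) : ℕ) : ZMod n)).val < w).card
      = ((range (w * m)).filter fun t => ((t : ℕ) : ZMod n) = j).card := by
  apply Finset.card_bij
    (fun (r : Fin m) _ => w * (r : ℕ) + (j - ((w * (r : ℕ) : ℕ) : ZMod n)).val)
  · intro r hr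
    simp only [Finset.mem_filter, Finset.mem_univ, true_and, Finset.mem_range] at hr ⊢
    constructor
    · have hm : (r : ℕ) + 1 ≤ m := r.2
      have : w * ((r : ℕ) + 1) ≤ w * m := Nat.mul_le_mul_left w hm
      have e : w * ((r : ℕ) + 1) = w * r + w := by ring
      omega
    · push_cast
      rw [ZMod.natCast_zmod_val]
      ring
  · intro a ha b hb h
    simp only [Finset.mem_filter, Finset.mem_univ, true_and] at ha hb
    have ea : (w * (a : ℕ) + (j - ((w * (a : ℕ) : ℕ) : ZMod n)).val) / w = a := by
      rw [Nat.mul_add_div h0, Nat.div_eq_of_lt ha, add_zero]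
    have eb : (w * (b : ℕ) + (j - ((w * (b : ℕ) : ℕ) : ZMod n)).val) / w = b := by
      rw [Nat.mul_add_div h0, Nat.div_eq_of_lt hb, add_zero]
    have h' : (w * (a : ℕ) + (j - ((w * (a : ℕ) : ℕ) : ZMod n)).val) / w
        = (w * (b : ℕ) + (j - ((w * (b : ℕ) : ℕ) : ZMod n)).val) / w := congrArg (· / w) h
    rw [ea, eb] at h'
    exact Fin.ext h'
  · intro t ht
    simp only [Finset.mem_filter, Finset.mem_range] at ht
    have hr : t / w < m := by
      rw [Nat.div_lt_iff_lt_mul h0, mul_comm]
      exact ht.1
    have hdm : w * (t / w) + t % w = t := Nat.div_add_mod t w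
    have hlt : t % w < w := Nat.mod_lt _ h0
    have e : j - ((w * (t / w) : ℕ) : ZMod n) = ((t % w : ℕ) : ZMod n) := by
      rw [← ht.2, sub_eq_iff_eq_add, ← Nat.cast_add]
      congr 1
      omega
    have hv : (j - ((w * (t / w) : ℕ) : ZMod n)).val = t % w := by
      rw [e]
      exact ZMod.val_cast_of_lt (by omega)
    refine ⟨⟨t / w, hr⟩, ?_, ?_⟩
    · simp only [Finset.mem_filter, Finset.mem_univ, true_and]
      rw [hv]
      exact hlt
    · simp only
      rw [hv]
      exact hdm

theorem cast_count (n : ℕ) [NeZero n] (N : ℕ) (j : ZMod n) :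
    ((range N).filter fun t => ((t : ℕ) : ZMod n) = j).card = N / n ∨
    ((range N).filter fun t => ((t : ℕ) : ZMod n) = j).card = N / n + 1 ∧ N % n ≠ 0 := by
  have hpos : 0 < n := Nat.pos_of_ne_zero (NeZero.ne n)
  have h1 : ((range N).filter fun t => ((t : ℕ) : ZMod n) = j).card
      = N.count (· ≡ j.val [MOD n]) := by
    rw [Nat.count_eq_card_filter_range]
    congr 1
    ext t
    simp only [Finset.mem_filter, Finset.mem_range]
    constructor
    · rintro ⟨h, h'⟩
      refine ⟨h, ?_⟩
      rw [← ZMod.natCast_eq_natCast_iff, ZMod.natCast_zmod_val]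
      exact h'
    · rintro ⟨h, h'⟩
      refine ⟨h, ?_⟩
      rw [← ZMod.natCast_eq_natCast_iff, ZMod.natCast_zmod_val] at h'
      exact h'
  rw [h1, Nat.count_modEq_card _ hpos]
  split_ifs with h
  · right
    exact ⟨rfl, by omega⟩
  · left
    simp

/-- the even cases `v = 2 m + n + 1`, `2 m = n + 1` or `2 m + 1 = n` -/
theorem step_even (n : ℕ) [NeZero n] (hn : Odd n) (m μ : ℕ) (h0 : 0 < μ) (hμ : 2 * μ ≤ n)
    (hm : 2 * m = n + 1 ∨ 2 * m + 1 = n) (hX : Good (Fin m × Bool) (2 * μ + 2)) :
    Good ((Fin m × Bool) ⊕ Option (ZMod n)) (2 * μ + 2) := by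
  have hpos : 0 < n := Nat.pos_of_ne_zero (NeZero.ne n)
  refine good_step' n hn _ hX
    (fun x j => (j - ((2 * μ * (x.1 : ℕ) : ℕ) : ZMod n)).val < 2 * μ) ?_ ?_
  · intro x
    rw [row_count n (2 * μ) hμ (((2 * μ * (x.1 : ℕ) : ℕ) : ZMod n))]
    omega
  · intro j
    have h1 := pair_count n (2 * μ) m (by omega) hμ j
    have h2 : (univ.filter fun x : Fin m × Bool =>
        (j - ((2 * μ * (x.1 : ℕ) : ℕ) : ZMod n)).val < 2 * μ).card
        = 2 * ((range (2 * μ * m)).filter fun t => ((t : ℕ) : ZMod n) = j).card := by
      rw [← h1, Finset.card_filter, Finset.card_filter, Fintype.sum_prod_type, Finset.mul_sum]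
      apply Finset.sum_congr rfl
      intro r _
      simp
    rw [h2]
    have h3 := cast_count n (2 * μ * m) j
    rcases hm with hm | hm
    · have e1 : 2 * μ * m = n * μ + μ := by
        calc 2 * μ * m = μ * (2 * m) := by ring
          _ = _ := by rw [hm]; ring
      have e2 : (2 * μ * m) / n = μ := by
        rw [e1, Nat.mul_add_div hpos, Nat.div_eq_of_lt (by omega), add_zero]
      rw [e2] at h3
      omega
    · have e1 : 2 * μ * m = n * (μ - 1) + (n - μ) := by
        obtain ⟨k, rfl⟩ : ∃ k, μ = k + 1 := ⟨μ - 1, by omega⟩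
        have : 2 * (k + 1) * m + (k + 1) = n * (k + 1) := by
          calc 2 * (k + 1) * m + (k + 1) = (k + 1) * (2 * m + 1) := by ring
            _ = _ := by rw [hm]; ring
        have e' : n * (k + 1) = n * k + n := by ring
        simp only [Nat.add_sub_cancel]
        omega
      have e2 : (2 * μ * m) / n = μ - 1 := by
        rw [e1, Nat.mul_add_div hpos, Nat.div_eq_of_lt (by omega), add_zero]
      rw [e2] at h3
      omega

theorem good_full (V : Type) [Fintype V] : Good V (Fintype.card V + 2) := by
  have := good_compl (good_zero V) (by omega)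
  simpa using this

theorem good_half (v : ℕ) (IH : ∀ u, u < v → ∀ l, 2 ≤ l → l ≤ u → Even (l * (u - 1)) → Good (Fin u) l)
    (l : ℕ) (h2 : 2 ≤ l) (hl : l ≤ v) (hp : Even (l * (v - 1))) (hh : 2 * l ≤ v + 2) :
    Good (Fin v) l := by
  rcases eq_or_lt_of_le h2 with rfl | h3
  · exact good_two _
  have hv4 : v % 4 = 0 ∨ v % 4 = 1 ∨ v % 4 = 2 ∨ v % 4 = 3 := by omega
  rcases hv4 with h | h | h | h
  · -- v = 2 n + 2
    obtain ⟨n, hn⟩ : ∃ n, v = 2 * n + 2 := ⟨v / 2 - 1, by omega⟩
    have hodd : Odd n := Nat.odd_iff.mpr (by omega)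
    have : NeZero n := ⟨by rintro rfl; omega⟩
    have hle : Even l := by
      rcases Nat.even_mul.mp hp with h' | h'
      · exact h'
      · exfalso
        rw [Nat.even_iff] at h'
        omega
    rw [Nat.even_iff] at hle
    obtain ⟨m, hm⟩ : ∃ m, 2 * m = n + 1 := ⟨(n + 1) / 2, by omega⟩
    obtain ⟨μ, hμ⟩ : ∃ μ, l = 2 * μ + 2 := ⟨l / 2 - 1, by omega⟩
    have hX : Good (Fin m × Bool) (2 * μ + 2) := by
      apply good_of_card (V := Fin (n + 1)) (by simp; omega)
      rw [← hμ]
      apply IH (n + 1) (by omega) l h2 (by omega)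
      rw [Nat.even_mul]
      left
      exact Nat.even_iff.mpr hle
    have := step_even n hodd m μ (by omega) (by omega) (Or.inl hm) hX
    rw [hμ]
    apply good_of_card _ this
    simp [ZMod.card]
    omega
  · -- v = 2 n + 3
    obtain ⟨n, hn⟩ : ∃ n, v = 2 * n + 3 := ⟨(v - 3) / 2, by omega⟩
    have hodd : Odd n := Nat.odd_iff.mpr (by omega)
    have : NeZero n := ⟨by rintro rfl; omega⟩
    have hX : Good (ZMod n ⊕ Bool) l := by
      apply good_of_card (V := Fin (n + 2)) (by simp [ZMod.card])
      apply IH (n + 2) (by omega) l h2 (by omega)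
      rw [Nat.even_mul]
      right
      rw [Nat.even_iff]
      have := Nat.odd_iff.mp hodd
      omega
    have := step_three n hodd l (l - 2) (by omega) (by omega) hX
    apply good_of_card _ this
    simp [ZMod.card]
    omega
  · -- v = 2 n
    obtain ⟨n, hn⟩ : ∃ n, v = 2 * n := ⟨v / 2, by omega⟩
    have hodd : Odd n := Nat.odd_iff.mpr (by omega)
    have : NeZero n := ⟨by rintro rfl; omega⟩
    have hle : Even l := by
      rcases Nat.even_mul.mp hp with h' | h'
      · exact h'
      · exfalso
        rw [Nat.even_iff] at h'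
        omega
    rw [Nat.even_iff] at hle
    obtain ⟨m, hm⟩ : ∃ m, 2 * m + 1 = n := ⟨(n - 1) / 2, by
      have := Nat.odd_iff.mp hodd
      omega⟩
    obtain ⟨μ, hμ⟩ : ∃ μ, l = 2 * μ + 2 := ⟨l / 2 - 1, by omega⟩
    have hX : Good (Fin m × Bool) (2 * μ + 2) := by
      rw [← hμ]
      by_cases hc : l = n + 1
      · have := good_full (Fin m × Bool)
        have e : Fintype.card (Fin m × Bool) + 2 = l := by
          simp
          omega
        rwa [e] at this
      · apply good_of_card (V := Fin (n - 1)) (by simp; omega)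
        apply IH (n - 1) (by omega) l h2 (by omega)
        rw [Nat.even_mul]
        left
        exact Nat.even_iff.mpr hle
    have := step_even n hodd m μ (by omega) (by omega) (Or.inr hm) hX
    rw [hμ]
    apply good_of_card _ this
    simp [ZMod.card]
    omega
  · -- v = 2 n + 1
    obtain ⟨n, hn⟩ : ∃ n, v = 2 * n + 1 := ⟨(v - 1) / 2, by omega⟩
    have hodd : Odd n := Nat.odd_iff.mpr (by omega)
    have : NeZero n := ⟨by rintro rfl; omega⟩
    by_cases hc : l ≤ n
    · have hX : Good (ZMod n) l := by
        apply good_of_card (V := Fin n) (by simp [ZMod.card])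
        apply IH n (by omega) l h2 hc
        rw [Nat.even_mul]
        right
        rw [Nat.even_iff]
        have := Nat.odd_iff.mp hodd
        omega
      have := step_one n hodd l l hc (Or.inl rfl) hX
      apply good_of_card _ this
      simp [ZMod.card]
      omega
    · have hl' : l = n + 1 := by omega
      have hX : Good (ZMod n) (n + 2) := by
        have := good_full (ZMod n)
        rwa [ZMod.card] at this
      have := step_one n hodd (n + 2) n le_rfl (Or.inr rfl) hX
      have h5 : Good (Fin v) (n + 2) := by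
        apply good_of_card _ this
        simp [ZMod.card]
        omega
      have h6 := good_compl h5 (by simp; omega)
      have e : Fintype.card (Fin v) + 2 - (n + 2) = l := by
        simp
        omega
      rwa [e] at h6

theorem good_main : ∀ v l : ℕ, 2 ≤ l → l ≤ v → Even (l * (v - 1)) → Good (Fin v) l := by
  intro v
  induction v using Nat.strong_induction_on with
  | _ v IH =>
    intro l h2 hl hp
    by_cases hh : 2 * l ≤ v + 2
    · exact good_half v IH l h2 hl hp hh
    · have hp' : Even ((v + 2 - l) * (v - 1)) := by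
        have e : (v + 2 - l) * (v - 1) + l * (v - 1) = (v + 2) * (v - 1) := by
          rw [← add_mul]
          congr 1
          omega
        have e2 : Even ((v + 2) * (v - 1)) := by
          rw [Nat.even_mul, Nat.even_iff, Nat.even_iff]
          omega
        rw [← e] at e2
        exact (Nat.even_add.mp e2).mpr hp
      have h5 := good_half v IH (v + 2 - l) (by omega) (by omega) hp' (by omega)
      have h6 := good_compl h5 (by simp)
      have e : Fintype.card (Fin v) + 2 - (v + 2 - l) = l := by
        simp
        omega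
      rwa [e] at h6

end Pool.Agent.Q296.VB
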