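import Mathlib
import Pool.Agent.Q296.VB.Design
set_option autoImplicit false

/-!
# Necessary conditions
-/

namespace Pool.Agent.Q296.VB

open Finset

theorem sum_count_erase {v : ℕ} (B : Multiset (Fin v)) (hB : Multiset.card B = 3) (i : Fin v) :
    ∑ j ∈ univ.erase i, B.count j = 3 - B.count i := by
  have h1 : ∑ j, B.count j = 3 := by
    rw [← hB]
    exact Multiset.sum_count_eq_card (fun a _ => Finset.mem_univ a)
  have h2 : B.count i + ∑ j ∈ univ.erase i, B.count j = ∑ j, B.count j :=
    Finset.add_sum_erase univ (fun j => B.count j) (Finset.mem_univ i)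
  omega

theorem even_row {v : ℕ} (D : List (Multiset (Fin v))) (hD : ∀ B ∈ D, IsBlock B) (i : Fin v) :
    Even (∑ j ∈ univ.erase i, conc D i j) := by
  induction D with
  | nil => simp [conc]
  | cons B D ih =>
    have h1 : ∀ j, conc (B :: D) i j = B.count i * B.count j + conc D i j := by
      intro j
      simp [conc]
    simp only [h1]
    rw [Finset.sum_add_distrib, ← Finset.mul_sum, sum_count_erase B (hD B (by simp)).1]
    apply Even.add _ (ih (fun B hB => hD B (by simp [hB])))
    have h3 : B.count i ≤ 3 := by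
      have := Multiset.count_le_card i B
      rwa [(hD B (by simp)).1] at this
    interval_cases B.count i <;> decide

theorem nec_even {v l : ℕ} (hv : 1 ≤ v) {D : List (Multiset (Fin v))} (h : IsVB v l D) :
    Even (l * (v - 1)) := by
  let i : Fin v := ⟨0, hv⟩
  have h1 := even_row D h.1 i
  have h2 : ∑ j ∈ univ.erase i, conc D i j = (v - 1) * l := by
    rw [Finset.sum_congr rfl (fun j hj => h.2 i j (Finset.ne_of_mem_erase hj).symm)]
    rw [Finset.sum_const, Finset.card_erase_of_mem (Finset.mem_univ _), Finset.card_univ,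
      Fintype.card_fin, smul_eq_mul]
  rw [h2, mul_comm] at h1
  exact h1

theorem nec_le {v l : ℕ} (hv : 2 ≤ v) {D : List (Multiset (Fin v))} (hnd : D.Nodup)
    (h : IsVB v l D) : l ≤ v + 2 := by
  have hij : (⟨0, by omega⟩ : Fin v) ≠ ⟨1, by omega⟩ := by
    intro h
    have := congrArg Fin.val h
    simp at this
  have h1 := h.2 _ _ hij
  rw [conc_eq h.1 hnd hij] at h1
  rw [← h1, ← wt_sum hij]
  apply Finset.sum_le_sum
  intro k _
  split_ifs <;> omega

theorem length_count {v : ℕ} (D : List (Multiset (Fin v)))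
    (hD : ∀ B ∈ D, Multiset.card B = 3 ∧ B.Nodup) :
    ∑ i, ∑ j ∈ univ.erase i, conc D i j = 6 * D.length := by
  induction D with
  | nil => simp [conc]
  | cons B D ih =>
    have h1 : ∀ i j, conc (B :: D) i j = B.count i * B.count j + conc D i j := by
      intro i j
      simp [conc]
    simp only [h1]
    have h2 : ∀ i, ∑ j ∈ univ.erase i, (B.count i * B.count j + conc D i j)
        = 2 * B.count i + ∑ j ∈ univ.erase i, conc D i j := by
      intro i
      rw [Finset.sum_add_distrib, ← Finset.mul_sum, sum_count_erase B (hD B (by simp)).1]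
      congr 1
      have h3 : B.count i ≤ 1 := Multiset.nodup_iff_count_le_one.mp (hD B (by simp)).2 i
      interval_cases B.count i <;> rfl
    simp only [h2]
    rw [Finset.sum_add_distrib, ← Finset.mul_sum, ih (fun B hB => hD B (by simp [hB]))]
    rw [Multiset.sum_count_eq_card (fun a _ => Finset.mem_univ a), (hD B (by simp)).1]
    simp
    ring

theorem nec_one {v : ℕ} (hv : 2 ≤ v) {D : List (Multiset (Fin v))}
    (h : IsVB v 1 D) : v % 6 = 1 ∨ v % 6 = 3 := by
  have hD : ∀ B ∈ D, Multiset.card B = 3 ∧ B.Nodup := by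
    intro B hB
    obtain ⟨hc, a', ha', b', hb', hne⟩ := h.1 B hB
    refine ⟨hc, ?_⟩
    rw [Multiset.nodup_iff_count_le_one]
    intro a
    by_contra hcon
    obtain ⟨b, hb, hba⟩ : ∃ b ∈ B, b ≠ a := by
      by_cases h1 : a' = a
      · exact ⟨b', hb', fun h2 => hne (by rw [h1, h2])⟩
      · exact ⟨a', ha', h1⟩
    have h1 := h.2 a b hba.symm
    have h2 : B.count a * B.count b ≤ conc D a b := by
      unfold conc
      apply List.le_sum_of_mem
      exact List.mem_map.mpr ⟨B, hB, rfl⟩
    have h3 : 1 ≤ B.count b := Multiset.count_pos.mpr hb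
    have h4 : 2 ≤ B.count a * B.count b := by
      have : 2 * 1 ≤ B.count a * B.count b := Nat.mul_le_mul (by omega) h3
      omega
    omega
  have h1 := length_count D hD
  have h2 : ∑ i : Fin v, ∑ j ∈ univ.erase i, conc D i j = v * (v - 1) := by
    have : ∀ i : Fin v, ∑ j ∈ univ.erase i, conc D i j = v - 1 := by
      intro i
      rw [Finset.sum_congr rfl (fun j hj => h.2 i j (Finset.ne_of_mem_erase hj).symm)]
      rw [Finset.sum_const, Finset.card_erase_of_mem (Finset.mem_univ _), Finset.card_univ,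
        Fintype.card_fin, smul_eq_mul, mul_one]
    simp only [this]
    simp
  rw [h2] at h1
  have h3 := nec_even (by omega) h
  rw [one_mul, Nat.even_iff] at h3
  have h4 : (v * (v - 1)) % 6 = 0 := by rw [h1]; simp
  rw [Nat.mul_mod] at h4
  have h5 : v % 6 = 0 ∨ v % 6 = 1 ∨ v % 6 = 2 ∨ v % 6 = 3 ∨ v % 6 = 4 ∨ v % 6 = 5 := by omega
  rcases h5 with h5 | h5 | h5 | h5 | h5 | h5
  · omega
  · left; exact h5
  · omega
  · right; exact h5
  · omega
  · exfalso
    have h6 : (v - 1) % 6 = 4 := by omega
    rw [h5, h6] at h4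
    omega

theorem nec_top {v : ℕ} (hv : 2 ≤ v) {D : List (Multiset (Fin v))} (hnd : D.Nodup)
    (h : IsVB v (v + 1) D) : v % 6 = 1 ∨ v % 6 = 3 := by
  classical
  apply nec_one (D := des v (fun B => B ∉ D)) hv
  refine ⟨des_block _, ?_⟩
  intro i j hij
  rw [conc_eq (des_block _) (des_nodup _) hij]
  have h1 := h.2 i j hij
  rw [conc_eq h.1 hnd hij] at h1
  have h2 := wt_sum hij
  have h3 : (∑ k, if (i ::ₘ j ::ₘ {k} : Multiset (Fin v)) ∈ des v (fun B => B ∉ D) then wt i j k else 0)
      + (∑ k, if (i ::ₘ j ::ₘ {k} : Multiset (Fin v)) ∈ D then wt i j k else 0) = ∑ k, wt i j k := by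
    rw [← Finset.sum_add_distrib]
    apply Finset.sum_congr rfl
    intro k _
    by_cases hk : (i ::ₘ j ::ₘ {k} : Multiset (Fin v)) ∈ D
    · have h5 : ¬ (i ::ₘ j ::ₘ {k} : Multiset (Fin v)) ∈ des v (fun B => B ∉ D) := by
        rw [mem_des _ hij]
        exact fun h => h hk
      rw [if_neg h5, if_pos hk, zero_add]
    · have h5 : (i ::ₘ j ::ₘ {k} : Multiset (Fin v)) ∈ des v (fun B => B ∉ D) := by
        rw [mem_des _ hij]
        exact hk
      rw [if_pos h5, if_neg hk, add_zero]
  have h4 : (∑ k, if (i ::ₘ j ::ₘ {k} : Multiset (Fin v)) ∈ D then wt i j k else 0) = v + 1 := by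
    convert h1
  omega

end Pool.Agent.Q296.VB
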