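import Mathlib
import Pool.Agent.Q296.VB.Good
set_option autoImplicit false

/-!
# Steiner triple systems (Bose, Skolem)
-/

namespace Pool.Agent.Q296.VB

open Finset

theorem cd_one {V : Type} [Fintype V] (t : V → V → V → Prop) (i j : V)
    (h : ∃ r, ∀ c, (c ≠ i ∧ c ≠ j ∧ t i j c) ↔ c = r) : cd t i j = 1 := by
  classical
  obtain ⟨r, hr⟩ := h
  unfold cd
  rw [Finset.card_eq_one]
  refine ⟨r, ?_⟩
  ext c
  simp only [Finset.mem_filter, Finset.mem_univ, true_and, Finset.mem_singleton]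
  exact hr c

/-- `x + y = 2 z` modulo `2 u + 1` -/
def Sb (u x y z : ℕ) : Prop :=
  x + y = 2 * z ∨ x + y + (2 * u + 1) = 2 * z ∨ x + y = 2 * z + (2 * u + 1)

def Bb (u : ℕ) (p q r : Fin (2 * u + 1) × Fin 3) : Prop :=
  (p.2 : ℕ) = q.2 ∧ (r.2 : ℕ) = (p.2 + 1) % 3 ∧ Sb u p.1 q.1 r.1

def tb (u : ℕ) (p q r : Fin (2 * u + 1) × Fin 3) : Prop :=
  ((p.1 : ℕ) = q.1 ∧ (q.1 : ℕ) = r.1 ∧ (p.2 : ℕ) ≠ q.2 ∧ (q.2 : ℕ) ≠ r.2 ∧ (p.2 : ℕ) ≠ r.2) ∨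
    Bb u p q r ∨ Bb u p r q ∨ Bb u q r p

theorem Bb_symm (u : ℕ) (p q r : Fin (2 * u + 1) × Fin 3) (h : Bb u p q r) : Bb u q p r := by
  unfold Bb Sb at *
  omega

theorem tb_1 (u : ℕ) (p q r : Fin (2 * u + 1) × Fin 3) (h : tb u p q r) : tb u q p r := by
  rcases h with h | h | h | h
  · left; omega
  · right; left; exact Bb_symm _ _ _ _ h
  · right; right; right; exact h
  · right; right; left; exact h

theorem tb_2 (u : ℕ) (p q r : Fin (2 * u + 1) × Fin 3) (h : tb u p q r) : tb u p r q := by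
  rcases h with h | h | h | h
  · left; omega
  · right; right; left; exact h
  · right; left; exact h
  · right; right; right; exact Bb_symm _ _ _ _ h

theorem ne_iff {n : ℕ} (p q : Fin n × Fin 3) : p ≠ q ↔ ¬ ((p.1 : ℕ) = q.1 ∧ (p.2 : ℕ) = q.2) := by
  rw [Ne, Prod.ext_iff, Fin.ext_iff, Fin.ext_iff]

theorem eq_iff {n : ℕ} (p q : Fin n × Fin 3) : p = q ↔ ((p.1 : ℕ) = q.1 ∧ (p.2 : ℕ) = q.2) := by
  rw [Prod.ext_iff, Fin.ext_iff, Fin.ext_iff]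

theorem tb_same (u : ℕ) (p q : Fin (2 * u + 1) × Fin 3) (h1 : (p.2 : ℕ) = q.2)
    (_h2 : (p.1 : ℕ) ≠ q.1) : ∃ r, ∀ c, (c ≠ p ∧ c ≠ q ∧ tb u p q c) ↔ c = r := by
  have hx := p.1.2
  have hy := q.1.2
  obtain ⟨z, hz, hzS⟩ : ∃ z, z < 2 * u + 1 ∧ Sb u p.1 q.1 z := by
    by_cases h : ((p.1 : ℕ) + q.1) % 2 = 0
    · exact ⟨((p.1 : ℕ) + q.1) / 2, by omega, by unfold Sb; omega⟩
    · by_cases h' : (p.1 : ℕ) + q.1 < 2 * u + 1
      · exact ⟨((p.1 : ℕ) + q.1 + (2 * u + 1)) / 2, by omega, by unfold Sb; omega⟩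
      · exact ⟨((p.1 : ℕ) + q.1 - (2 * u + 1)) / 2, by omega, by unfold Sb; omega⟩
  refine ⟨(⟨z, hz⟩, ⟨((p.2 : ℕ) + 1) % 3, by omega⟩), ?_⟩
  intro c
  have hc := c.1.2
  have hc2 := c.2.2
  have hp2 := p.2.2
  rw [ne_iff, ne_iff, eq_iff]
  simp only [tb, Bb, Sb] at hzS ⊢
  omega

theorem tb_next (u : ℕ) (p q : Fin (2 * u + 1) × Fin 3) (h1 : (q.2 : ℕ) = (p.2 + 1) % 3) :
    ∃ r, ∀ c, (c ≠ p ∧ c ≠ q ∧ tb u p q c) ↔ c = r := by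
  have hx := p.1.2
  have hy := q.1.2
  have hp2 := p.2.2
  by_cases hxy : (p.1 : ℕ) = q.1
  · refine ⟨(p.1, ⟨((p.2 : ℕ) + 2) % 3, by omega⟩), ?_⟩
    intro c
    have hc := c.1.2
    have hc2 := c.2.2
    rw [ne_iff, ne_iff, eq_iff]
    simp only [tb, Bb, Sb]
    omega
  · obtain ⟨z, hz, hzS⟩ : ∃ z, z < 2 * u + 1 ∧ Sb u p.1 z q.1 := by
      by_cases h : 2 * (q.1 : ℕ) < p.1
      · exact ⟨2 * (q.1 : ℕ) + (2 * u + 1) - p.1, by omega, by unfold Sb; omega⟩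
      · by_cases h' : 2 * (q.1 : ℕ) - p.1 < 2 * u + 1
        · exact ⟨2 * (q.1 : ℕ) - p.1, by omega, by unfold Sb; omega⟩
        · exact ⟨2 * (q.1 : ℕ) - p.1 - (2 * u + 1), by omega, by unfold Sb; omega⟩
    refine ⟨(⟨z, hz⟩, p.2), ?_⟩
    intro c
    have hc := c.1.2
    have hc2 := c.2.2
    rw [ne_iff, ne_iff, eq_iff]
    simp only [tb, Bb, Sb] at hzS ⊢
    omega

theorem bose (u : ℕ) : Good (Fin (2 * u + 1) × Fin 3) 1 := by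
  refine ⟨tb u, tb_1 u, tb_2 u, ?_⟩
  intro p q hpq
  left
  apply cd_one
  have hp2 := p.2.2
  have hq2 := q.2.2
  by_cases h : (p.2 : ℕ) = q.2
  · apply tb_same u p q h
    rw [ne_iff] at hpq
    omega
  · by_cases h' : (q.2 : ℕ) = (p.2 + 1) % 3
    · exact tb_next u p q h'
    · obtain ⟨r, hr⟩ := tb_next u q p (by omega)
      refine ⟨r, ?_⟩
      intro c
      rw [← hr c]
      constructor
      · rintro ⟨a, b, e⟩; exact ⟨b, a, tb_1 _ _ _ _ e⟩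
      · rintro ⟨a, b, e⟩; exact ⟨b, a, tb_1 _ _ _ _ e⟩

end Pool.Agent.Q296.VB
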