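import Mathlib
import Pool.Agent.Q296.VB.STS
set_option autoImplicit false

/-!
# Steiner triple systems on `6 u + 1` points (Skolem)
-/

namespace Pool.Agent.Q296.VB

open Finset

/-- `x + y = τ z` modulo `2 u` -/
def Ss (u x y z : ℕ) : Prop :=
  (z < u ∧ (x + y = 2 * z ∨ x + y = 2 * z + 2 * u)) ∨
    (u ≤ z ∧ (x + y + 2 * u = 2 * z + 1 ∨ x + y = 2 * z + 1))

def Bs (u : ℕ) (p q r : Fin (2 * u) × Fin 3) : Prop :=
  (p.2 : ℕ) = q.2 ∧ (r.2 : ℕ) = (p.2 + 1) % 3 ∧ Ss u p.1 q.1 r.1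

/-- `{∞, p, q}` is a triple, oriented -/
def Is (u : ℕ) (p q : Fin (2 * u) × Fin 3) : Prop :=
  (p.1 : ℕ) = q.1 + u ∧ (q.2 : ℕ) = (p.2 + 1) % 3

def t0 (u : ℕ) (p q r : Fin (2 * u) × Fin 3) : Prop :=
  ((p.1 : ℕ) < u ∧ (p.1 : ℕ) = q.1 ∧ (q.1 : ℕ) = r.1 ∧ (p.2 : ℕ) ≠ q.2 ∧ (q.2 : ℕ) ≠ r.2 ∧
    (p.2 : ℕ) ≠ r.2) ∨ Bs u p q r ∨ Bs u p r q ∨ Bs u q r p

def ts (u : ℕ) : Option (Fin (2 * u) × Fin 3) → Option (Fin (2 * u) × Fin 3) →
    Option (Fin (2 * u) × Fin 3) → Prop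
  | some p, some q, some r => t0 u p q r
  | none, some p, some q => Is u p q ∨ Is u q p
  | some p, none, some q => Is u p q ∨ Is u q p
  | some p, some q, none => Is u p q ∨ Is u q p
  | _, _, _ => False

theorem Bs_symm (u : ℕ) (p q r : Fin (2 * u) × Fin 3) (h : Bs u p q r) : Bs u q p r := by
  unfold Bs Ss at *
  omega

theorem t0_1 (u : ℕ) (p q r : Fin (2 * u) × Fin 3) (h : t0 u p q r) : t0 u q p r := by
  rcases h with h | h | h | h
  · left; omega
  · right; left; exact Bs_symm _ _ _ _ h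
  · right; right; right; exact h
  · right; right; left; exact h

theorem t0_2 (u : ℕ) (p q r : Fin (2 * u) × Fin 3) (h : t0 u p q r) : t0 u p r q := by
  rcases h with h | h | h | h
  · left; omega
  · right; right; left; exact h
  · right; left; exact h
  · right; right; right; exact Bs_symm _ _ _ _ h

theorem ts_1 (u : ℕ) (p q r : Option (Fin (2 * u) × Fin 3)) (h : ts u p q r) : ts u q p r := by
  rcases p with _ | p <;> rcases q with _ | q <;> rcases r with _ | r <;> simp only [ts] at h ⊢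
  · exact h
  · exact h
  · exact h.symm
  · exact t0_1 _ _ _ _ h

theorem ts_2 (u : ℕ) (p q r : Option (Fin (2 * u) × Fin 3)) (h : ts u p q r) : ts u p r q := by
  rcases p with _ | p <;> rcases q with _ | q <;> rcases r with _ | r <;> simp only [ts] at h ⊢
  · exact h.symm
  · exact h
  · exact h
  · exact t0_2 _ _ _ _ h

theorem ts_none (u : ℕ) (p : Fin (2 * u) × Fin 3) :
    ∃ r, ∀ c, (c ≠ none ∧ c ≠ some p ∧ ts u none (some p) c) ↔ c = r := by
  have hx := p.1.2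
  have hp2 := p.2.2
  by_cases h : (p.1 : ℕ) < u
  · refine ⟨some (⟨(p.1 : ℕ) + u, by omega⟩, ⟨((p.2 : ℕ) + 2) % 3, by omega⟩), ?_⟩
    rintro (_ | c)
    · simp
    · have hc := c.1.2
      have hc2 := c.2.2
      simp only [ts, Option.some_inj, Ne, reduceCtorEq, not_false_eq_true, true_and]
      rw [← Ne, ne_iff, eq_iff]
      simp only [Is]
      omega
  · refine ⟨some (⟨(p.1 : ℕ) - u, by omega⟩, ⟨((p.2 : ℕ) + 1) % 3, by omega⟩), ?_⟩
    rintro (_ | c)
    · simp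
    · have hc := c.1.2
      have hc2 := c.2.2
      simp only [ts, Option.some_inj, Ne, reduceCtorEq, not_false_eq_true, true_and]
      rw [← Ne, ne_iff, eq_iff]
      simp only [Is]
      omega

theorem ts_same (u : ℕ) (p q : Fin (2 * u) × Fin 3) (h1 : (p.2 : ℕ) = q.2)
    (_h2 : (p.1 : ℕ) ≠ q.1) :
    ∃ r, ∀ c, (c ≠ some p ∧ c ≠ some q ∧ ts u (some p) (some q) c) ↔ c = r := by
  have hx := p.1.2
  have hy := q.1.2
  have hp2 := p.2.2
  obtain ⟨z, hz, hzS⟩ : ∃ z, z < 2 * u ∧ Ss u p.1 q.1 z := by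
    by_cases h' : (p.1 : ℕ) + q.1 < 2 * u
    · by_cases h : ((p.1 : ℕ) + q.1) % 2 = 0
      · exact ⟨((p.1 : ℕ) + q.1) / 2, by omega, by unfold Ss; omega⟩
      · exact ⟨((p.1 : ℕ) + q.1) / 2 + u, by omega, by unfold Ss; omega⟩
    · by_cases h : ((p.1 : ℕ) + q.1) % 2 = 0
      · exact ⟨((p.1 : ℕ) + q.1) / 2 - u, by omega, by unfold Ss; omega⟩
      · exact ⟨((p.1 : ℕ) + q.1) / 2, by omega, by unfold Ss; omega⟩
  refine ⟨some (⟨z, hz⟩, ⟨((p.2 : ℕ) + 1) % 3, by omega⟩), ?_⟩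
  rintro (_ | c)
  · simp only [ts, Is, reduceCtorEq, iff_false]
    omega
  · have hc := c.1.2
    have hc2 := c.2.2
    simp only [Option.some_inj, Ne]
    rw [← Ne, ← Ne, ne_iff, ne_iff, eq_iff]
    simp only [ts, t0, Bs, Ss] at hzS ⊢
    omega

theorem ts_next (u : ℕ) (p q : Fin (2 * u) × Fin 3) (h1 : (q.2 : ℕ) = (p.2 + 1) % 3) :
    ∃ r, ∀ c, (c ≠ some p ∧ c ≠ some q ∧ ts u (some p) (some q) c) ↔ c = r := by
  have hx := p.1.2
  have hy := q.1.2
  have hp2 := p.2.2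
  by_cases hxy : (p.1 : ℕ) = q.1 ∧ (p.1 : ℕ) < u
  · refine ⟨some (p.1, ⟨((p.2 : ℕ) + 2) % 3, by omega⟩), ?_⟩
    rintro (_ | c)
    · simp only [ts, Is, reduceCtorEq, iff_false]
      omega
    · have hc := c.1.2
      have hc2 := c.2.2
      simp only [Option.some_inj, Ne]
      rw [← Ne, ← Ne, ne_iff, ne_iff, eq_iff]
      simp only [ts, t0, Bs, Ss]
      omega
  · by_cases hxu : (p.1 : ℕ) = q.1 + u
    · refine ⟨none, ?_⟩
      rintro (_ | c)
      · simp only [ts, Is]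
        simp
        omega
      · have hc := c.1.2
        have hc2 := c.2.2
        simp only [Option.some_inj, Ne, reduceCtorEq, iff_false]
        rw [← Ne, ← Ne, ne_iff, ne_iff]
        simp only [ts, t0, Bs, Ss]
        omega
    · obtain ⟨z, hz, hzS⟩ : ∃ z, z < 2 * u ∧ Ss u p.1 z q.1 := by
        by_cases hq : (q.1 : ℕ) < u
        · by_cases h : 2 * (q.1 : ℕ) < p.1
          · exact ⟨2 * (q.1 : ℕ) + 2 * u - p.1, by omega, by unfold Ss; omega⟩
          · exact ⟨2 * (q.1 : ℕ) - p.1, by omega, by unfold Ss; omega⟩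
        · by_cases h : 2 * (q.1 : ℕ) + 1 < p.1 + 2 * u
          · exact ⟨2 * (q.1 : ℕ) + 1 - p.1, by omega, by unfold Ss; omega⟩
          · exact ⟨2 * (q.1 : ℕ) + 1 - 2 * u - p.1, by omega, by unfold Ss; omega⟩
      refine ⟨some (⟨z, hz⟩, p.2), ?_⟩
      rintro (_ | c)
      · simp only [ts, Is, reduceCtorEq, iff_false]
        omega
      · have hc := c.1.2
        have hc2 := c.2.2
        simp only [Option.some_inj, Ne]
        rw [← Ne, ← Ne, ne_iff, ne_iff, eq_iff]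
        simp only [ts, t0, Bs, Ss] at hzS ⊢
        omega

theorem skolem (u : ℕ) : Good (Option (Fin (2 * u) × Fin 3)) 1 := by
  refine ⟨ts u, ts_1 u, ts_2 u, ?_⟩
  have hsymm : ∀ p q, (∃ r, ∀ c, (c ≠ q ∧ c ≠ p ∧ ts u q p c) ↔ c = r) →
      ∃ r, ∀ c, (c ≠ p ∧ c ≠ q ∧ ts u p q c) ↔ c = r := by
    rintro p q ⟨r, hr⟩
    refine ⟨r, ?_⟩
    intro c
    rw [← hr c]
    constructor
    · rintro ⟨a, b, e⟩; exact ⟨b, a, ts_1 _ _ _ _ e⟩
    · rintro ⟨a, b, e⟩; exact ⟨b, a, ts_1 _ _ _ _ e⟩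
  intro p q hpq
  left
  apply cd_one
  rcases p with _ | p
  · rcases q with _ | q
    · exact absurd rfl hpq
    · exact ts_none u q
  · rcases q with _ | q
    · exact hsymm _ _ (ts_none u p)
    · have hpq' : p ≠ q := fun h => hpq (by rw [h])
      have hp2 := p.2.2
      have hq2 := q.2.2
      by_cases h : (p.2 : ℕ) = q.2
      · apply ts_same u p q h
        rw [ne_iff] at hpq'
        omega
      · by_cases h' : (q.2 : ℕ) = (p.2 + 1) % 3
        · exact ts_next u p q h'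
        · exact hsymm _ _ (ts_next u q p (by omega))

theorem good_one {v : ℕ} (h : v % 6 = 1 ∨ v % 6 = 3) : Good (Fin v) 1 := by
  rcases h with h | h
  · obtain ⟨u, rfl⟩ : ∃ u, v = 6 * u + 1 := ⟨v / 6, by omega⟩
    apply good_of_card _ (skolem u)
    simp
    omega
  · obtain ⟨u, rfl⟩ : ∃ u, v = 6 * u + 3 := ⟨v / 6, by omega⟩
    apply good_of_card _ (bose u)
    simp
    omega

end Pool.Agent.Q296.VB
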