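import Mathlib
import Pool.Agent.Q296.VB.Ind
import Pool.Agent.Q296.VB.Nec
import Pool.Agent.Q296.VB.Sko
set_option autoImplicit false

/-!
# All pairs `(v, l)` for which there is a `VB(v,3,l)` design without repeated blocks
-/

namespace Pool.Agent.Q296.VB

theorem main (v l : ℕ) (hv : 2 ≤ v) (hl : 1 ≤ l) :
    (∃ D : List (Multiset (Fin v)), D.Nodup ∧ IsVB v l D) ↔
      (l = v + 2 ∨ (2 ≤ l ∧ l ≤ v ∧ Even (l * (v - 1))) ∨
        ((l = 1 ∨ l = v + 1) ∧ (v % 6 = 1 ∨ v % 6 = 3))) := by
  constructor
  · rintro ⟨D, hnd, hD⟩
    have h1 := nec_le hv hnd hD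
    have h2 := nec_even (by omega) hD
    by_cases e1 : l = v + 2
    · left; exact e1
    · by_cases e2 : l = v + 1
      · right; right
        refine ⟨Or.inr e2, ?_⟩
        subst e2
        exact nec_top hv hnd hD
      · by_cases e3 : l = 1
        · right; right
          refine ⟨Or.inl e3, ?_⟩
          subst e3
          exact nec_one hv hD
        · right; left
          exact ⟨by omega, by omega, h2⟩
  · rintro (h | ⟨h2, h3, h4⟩ | ⟨h | h, h5⟩)
    · have := good_full (Fin v)
      rw [Fintype.card_fin, ← h] at this
      exact exists_of_good this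
    · exact exists_of_good (good_main v l h2 h3 h4)
    · subst h
      exact exists_of_good (good_one h5)
    · have := good_compl (good_one h5) (by omega)
      rw [Fintype.card_fin] at this
      have e : v + 2 - 1 = l := by omega
      rw [e] at this
      exact exists_of_good this

end Pool.Agent.Q296.VB
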